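import Pool.Agent.Work.MP_64ea0f_al_39.Rep

/-! The characteristic polynomial of a product of distinct reflections. -/

set_option autoImplicit false

namespace Cx39

open Finset

section tri

variable {B : Type*} [Fintype B] [DecidableEq B] {R : Type*} [CommRing R]

lemma det_tri (M : Matrix B B R) (b : B → ℕ) (h : ∀ i j, i ≠ j → b j ≤ b i → M i j = 0) :
    M.det = ∏ i, M i i := by
  have h1 : Matrix.BlockTriangular M b := by
    intro i j hij
    exact h i j (by rintro rfl; exact lt_irrefl _ hij) hij.le
  rw [h1.det]
  have h2 : ∀ a, (M.toSquareBlock b a).det = ∏ i with b i = a, M i i := by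
    intro a
    have h3 : M.toSquareBlock b a = Matrix.diagonal (fun i : {i // b i = a} => M i i) := by
      ext i j
      rcases eq_or_ne i j with rfl | hij
      · rw [Matrix.diagonal_apply_eq]; rfl
      · rw [Matrix.diagonal_apply_ne _ hij]
        exact h i j (fun e => hij (Subtype.ext e)) (by rw [i.2, j.2])
    rw [h3, Matrix.det_diagonal]
    rw [← Finset.prod_subtype_eq_prod_filter]
    simp
  rw [Finset.prod_congr rfl fun a _ => h2 a]
  exact Finset.prod_fiberwise_of_maps_to (fun i _ => Finset.mem_image_of_mem _ (Finset.mem_univ i)) _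

lemma det_tri' (M : Matrix B B R) (b : B → ℕ) (h : ∀ i j, i ≠ j → b i ≤ b j → M i j = 0) :
    M.det = ∏ i, M i i := by
  rw [← Matrix.det_transpose, det_tri M.transpose b]
  · rfl
  · intro i j hij hb
    exact h j i hij.symm hb

end tri

section words

variable {B : Type*} [DecidableEq B]

/-- `j` occurs in `l` after `i` -/
def aft (l : List B) (i j : B) : Prop := j ∈ l ∧ l.idxOf i < l.idxOf j

instance (l : List B) (i j : B) : Decidable (aft l i j) := by unfold aft; infer_instance

lemma aft_cons_of_ne {i : B} {t : List B} (hi : i ∉ t) {k : B} (hk : k ≠ i) (j : B) :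
    aft (i :: t) k j ↔ aft t k j := by
  unfold aft
  rcases eq_or_ne j i with rfl | hj
  · simp [hi]
  · rw [List.idxOf_cons_ne _ hk.symm, List.idxOf_cons_ne _ hj.symm]
    simp [hj]

lemma aft_cons_self {i : B} {t : List B} (hi : i ∉ t) (j : B) :
    aft (i :: t) i j ↔ j ∈ t := by
  unfold aft
  rcases eq_or_ne j i with rfl | hj
  · simp [hi]
  · rw [List.idxOf_cons_self, List.idxOf_cons_ne _ hj.symm]
    simp [hj]

lemma not_aft_self (l : List B) (i : B) : ¬ aft l i i := fun h => lt_irrefl _ h.2

end words

section char

variable {B : Type*} [Fintype B] [DecidableEq B] {K : Type*} [Field K]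

lemma prod_step (a : B → B → K) (hd : ∀ i, a i i = 2) : ∀ (l : List B), l.Nodup →
    ∀ v : B → K, (∀ i, i ∉ l → (l.map (Rmat a)).prod.mulVec v i = v i) ∧
    (∀ i, i ∈ l → (l.map (Rmat a)).prod.mulVec v i +
      (∑ j, if aft l i j then a i j * (l.map (Rmat a)).prod.mulVec v j else 0) =
      -(v i + ∑ j, if j = i ∨ aft l i j then 0 else a i j * v j)) := by
  intro l
  induction l with
  | nil => intro _ v; simp
  | cons i t ih =>
    intro hn v
    rw [List.nodup_cons] at hn
    obtain ⟨hit, hnt⟩ := hn
    obtain ⟨ih1, ih2⟩ := ih hnt v
    rw [List.map_cons, List.prod_cons, ← Matrix.mulVec_mulVec]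
    generalize hu : (t.map (Rmat a)).prod.mulVec v = u at *
    rw [Rmat_mulVec]
    set w : B → K := u - (a i ⬝ᵥ u) • Pi.single i 1 with hw
    have hwj : ∀ j, j ≠ i → w j = u j := by
      intro j hj
      simp [hw, hj]
    have hwi : w i = u i - a i ⬝ᵥ u := by simp [hw]
    constructor
    · intro k hk
      rw [List.mem_cons, not_or] at hk
      rw [hwj k hk.1, ih1 k hk.2]
    · intro k hk
      rw [List.mem_cons] at hk
      rcases eq_or_ne k i with rfl | hki
      · -- the row of the first letter
        rw [hwi]
        have e1 : (∑ j, if aft (k :: t) k j then a k j * w j else 0) =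
            ∑ j, if j ∈ t then a k j * u j else 0 := by
          refine Finset.sum_congr rfl fun j _ => ?_
          by_cases hj : j ∈ t
          · rw [if_pos ((aft_cons_self hit j).2 hj), if_pos hj, hwj j (by rintro rfl; exact hit hj)]
          · rw [if_neg (fun h => hj ((aft_cons_self hit j).1 h)), if_neg hj]
        have e2 : (∑ j, if j = k ∨ aft (k :: t) k j then 0 else a k j * v j) =
            ∑ j, if j = k then 0 else (if j ∈ t then 0 else a k j * u j) := by
          refine Finset.sum_congr rfl fun j _ => ?_
          by_cases hjk : j = k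
          · simp [hjk]
          · by_cases hj : j ∈ t
            · rw [if_pos (Or.inr ((aft_cons_self hit j).2 hj)), if_neg hjk, if_pos hj]
            · rw [if_neg, if_neg hjk, if_neg hj, ih1 j hj]
              rintro (h | h)
              · exact hjk h
              · exact hj ((aft_cons_self hit j).1 h)
        have e3 : a k ⬝ᵥ u = 2 * u k + (∑ j, if j ∈ t then a k j * u j else 0) +
            ∑ j, (if j = k then 0 else (if j ∈ t then 0 else a k j * u j)) := by
          have : 2 * u k = ∑ j, if j = k then a k j * u j else 0 := by
            simp [hd]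
          rw [this, ← Finset.sum_add_distrib, ← Finset.sum_add_distrib]
          unfold dotProduct
          refine Finset.sum_congr rfl fun j _ => ?_
          by_cases hjk : j = k
          · subst hjk; simp [hit]
          · by_cases hj : j ∈ t <;> simp [hjk, hj]
        rw [e1, e2, e3, ih1 k hit]
        ring
      · have hkt : k ∈ t := hk.resolve_left hki
        have := ih2 k hkt
        rw [hwj k hki]
        have e1 : (∑ j, if aft (i :: t) k j then a k j * w j else 0) =
            ∑ j, if aft t k j then a k j * u j else 0 := by
          refine Finset.sum_congr rfl fun j _ => ?_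
          by_cases hj : aft t k j
          · rw [if_pos ((aft_cons_of_ne hit hki j).2 hj), if_pos hj,
              hwj j (by rintro rfl; exact hit hj.1)]
          · rw [if_neg (fun h => hj ((aft_cons_of_ne hit hki j).1 h)), if_neg hj]
        have e2 : (∑ j, if j = k ∨ aft (i :: t) k j then 0 else a k j * v j) =
            ∑ j, if j = k ∨ aft t k j then 0 else a k j * v j := by
          refine Finset.sum_congr rfl fun j _ => ?_
          simp only [aft_cons_of_ne hit hki j]
        rw [e1, e2, this]

/-- the upper factor -/
def Umat (a : B → B → K) (l : List B) : Matrix B B K :=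
  fun i j => if i = j then 1 else if i ∈ l ∧ aft l i j then a i j else 0

/-- `λ U + L` -/
def Nmat (a : B → B → K) (l : List B) (x : K) : Matrix B B K :=
  fun i j => if i ∈ l then (if i = j then x + 1 else if aft l i j then x * a i j else a i j)
    else (if i = j then x - 1 else 0)

lemma U_mul (a : B → B → K) (hd : ∀ i, a i i = 2) (l : List B) (hl : l.Nodup) (x : K) :
    Umat a l * (x • 1 - (l.map (Rmat a)).prod) = Nmat a l x := by
  apply Matrix.toLin'.injective
  apply LinearMap.ext
  intro v
  rw [Matrix.toLin'_apply, Matrix.toLin'_apply, ← Matrix.mulVec_mulVec, Matrix.sub_mulVec,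
    Matrix.smul_mulVec, Matrix.one_mulVec]
  obtain ⟨h1, h2⟩ := prod_step a hd l hl v
  generalize (l.map (Rmat a)).prod.mulVec v = w at *
  ext i
  by_cases hi : i ∈ l
  · have e1 : (Umat a l).mulVec (x • v - w) i = (x * v i - w i) +
        ∑ j, if aft l i j then a i j * (x * v j - w j) else 0 := by
      have : (x * v i - w i) = ∑ j, if j = i then (x * v j - w j) else 0 := by simp
      rw [this, ← Finset.sum_add_distrib]
      unfold Matrix.mulVec dotProduct
      refine Finset.sum_congr rfl fun j _ => ?_
      simp only [Umat, Pi.sub_apply, Pi.smul_apply, smul_eq_mul]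
      by_cases hij : j = i
      · subst hij; simp [not_aft_self]
      · have hij' : i ≠ j := fun h => hij h.symm
        by_cases ha : aft l i j <;> simp [hij, hij', ha, hi]
    have e2 : (Nmat a l x).mulVec v i = (x + 1) * v i +
        (∑ j, if aft l i j then a i j * (x * v j) else 0) +
        ∑ j, if j = i ∨ aft l i j then 0 else a i j * v j := by
      have : (x + 1) * v i = ∑ j, if j = i then (x + 1) * v j else 0 := by simp
      rw [this, ← Finset.sum_add_distrib, ← Finset.sum_add_distrib]
      unfold Matrix.mulVec dotProduct
      refine Finset.sum_congr rfl fun j _ => ?_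
      simp only [Nmat]
      by_cases hij : j = i
      · subst hij; simp [not_aft_self, hi]
      · have hij' : i ≠ j := fun h => hij h.symm
        by_cases ha : aft l i j
        · simp [hij, hij', ha, hi]; ring
        · simp [hij, hij', ha, hi]
    have e3 : (∑ j, if aft l i j then a i j * (x * v j - w j) else 0) =
        (∑ j, if aft l i j then a i j * (x * v j) else 0) -
        ∑ j, if aft l i j then a i j * w j else 0 := by
      rw [← Finset.sum_sub_distrib]
      refine Finset.sum_congr rfl fun j _ => ?_
      split_ifs <;> ring
    have := h2 i hi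
    rw [e1, e2, e3]
    linear_combination -this
  · have e1 : (Umat a l).mulVec (x • v - w) i = (x * v i - w i) := by
      have : (x * v i - w i) = ∑ j, if j = i then (x * v j - w j) else 0 := by simp
      rw [this]
      unfold Matrix.mulVec dotProduct
      refine Finset.sum_congr rfl fun j _ => ?_
      simp only [Umat, Pi.sub_apply, Pi.smul_apply, smul_eq_mul]
      by_cases hij : j = i
      · subst hij; simp
      · have hij' : i ≠ j := fun h => hij h.symm
        simp [hij, hij', hi]
    have e2 : (Nmat a l x).mulVec v i = (x - 1) * v i := by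
      have : (x - 1) * v i = ∑ j, if j = i then (x - 1) * v j else 0 := by simp
      rw [this]
      unfold Matrix.mulVec dotProduct
      refine Finset.sum_congr rfl fun j _ => ?_
      simp only [Nmat]
      by_cases hij : j = i
      · subst hij; simp [hi]
      · have hij' : i ≠ j := fun h => hij h.symm
        simp [hij, hij', hi]
    rw [e1, e2, h1 i hi]
    ring

lemma det_U (a : B → B → K) (l : List B) : (Umat a l).det = 1 := by
  rw [det_tri (Umat a l) (fun i => l.idxOf i)]
  · simp [Umat]
  · intro i j hij hb
    simp only [Umat, if_neg hij]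
    rw [if_neg]
    rintro ⟨_, _, h⟩
    exact absurd h (not_lt.2 hb)

lemma det_N (a : B → B → K) (hd : ∀ i, a i i = 2) (l : List B) (hl : l.Nodup) (x : K) :
    (Nmat a l x).det = (x • (1 : Matrix B B K) - (l.map (Rmat a)).prod).det := by
  rw [← U_mul a hd l hl x, Matrix.det_mul, det_U, one_mul]

/-- conjugate matrices have equal determinants `det (x - P)` -/
lemma det_N_conj (a : B → B → K) (hd : ∀ i, a i i = 2) {l l' : List B} (hl : l.Nodup)
    (hl' : l'.Nodup) {g h : Matrix B B K} (hgh : g * h = 1)
    (hc : (l'.map (Rmat a)).prod = g * (l.map (Rmat a)).prod * h) (x : K) :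
    (Nmat a l x).det = (Nmat a l' x).det := by
  rw [det_N a hd l hl, det_N a hd l' hl', hc]
  have : x • (1 : Matrix B B K) - g * (l.map (Rmat a)).prod * h =
      g * (x • (1 : Matrix B B K) - (l.map (Rmat a)).prod) * h := by
    rw [mul_sub, sub_mul, mul_smul_comm, mul_one, smul_mul_assoc, hgh]
  rw [this, Matrix.det_mul, Matrix.det_mul]
  have h1 : g.det * h.det = 1 := by rw [← Matrix.det_mul, hgh, Matrix.det_one]
  calc _ = (g.det * h.det) * (x • (1 : Matrix B B K) - (l.map (Rmat a)).prod).det := by
        rw [h1, one_mul]
    _ = _ := by ring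

end char

end Cx39
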