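import Pool.Agent.Work.MP_64ea0f_al_39.Sep

/-! Coxeter elements with the same support are separated by finite quotients. -/

set_option autoImplicit false

namespace Cx39

open Finset Polynomial

section params

variable {K : Type*} [Field K] [IsAlgClosed K]

lemma exists_cc (m : ℕ) (hm : 3 ≤ m) (hmK : (m : K) ≠ 0) : ∃ c z : K, c ≠ 0 ∧ z ^ m = 1 ∧
    z ^ 2 ≠ 1 ∧ (Even m → z ^ (m / 2) = -1) ∧ z + z⁻¹ = c * c - 2 := by
  have : NeZero (m : K) := ⟨hmK⟩
  obtain ⟨z, hz⟩ := HasEnoughRootsOfUnity.exists_primitiveRoot K m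
  have hz2 : z ^ 2 ≠ 1 := by
    intro h
    have := hz.dvd_of_pow_eq_one 2 h
    have := Nat.le_of_dvd (by norm_num) this
    omega
  have hz0 : z ≠ 0 := by
    rintro rfl
    have := hz.pow_eq_one
    rw [zero_pow (by omega)] at this
    exact zero_ne_one this
  obtain ⟨c, hc⟩ := IsAlgClosed.exists_pow_nat_eq (z + z⁻¹ + 2) (n := 2) (by norm_num)
  refine ⟨c, z, ?_, hz.pow_eq_one, hz2, ?_, ?_⟩
  · rintro rfl
    rw [zero_pow (by norm_num)] at hc
    have h1 : (z + 1) ^ 2 = 0 := by
      have : (z + 1) ^ 2 = z * (z + z⁻¹ + 2) := by field_simp; ring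
      rw [this, ← hc, mul_zero]
    have h2 : z = -1 := eq_neg_of_add_eq_zero_left (pow_eq_zero_iff (by norm_num) |>.1 h1)
    apply hz2
    rw [h2]; norm_num
  · rintro ⟨k, hk⟩
    have hk2 : m / 2 = k := by omega
    rw [hk2]
    have h1 : (z ^ k) ^ 2 = 1 := by
      rw [← pow_mul, show k * 2 = m by omega, hz.pow_eq_one]
    have h2 : z ^ k ≠ 1 := by
      intro h
      have := Nat.le_of_dvd (by omega) (hz.dvd_of_pow_eq_one k h)
      omega
    have h3 : (z ^ k - 1) * (z ^ k + 1) = 0 := by linear_combination h1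
    rcases mul_eq_zero.1 h3 with h | h
    · exact absurd (sub_eq_zero.1 h) h2
    · exact eq_neg_of_add_eq_zero_left h
  · rw [← sq, hc]; ring

open Classical in
/-- edge weights -/
noncomputable def cf (K : Type*) [Field K] [IsAlgClosed K] (m : ℕ) : K :=
  if h : 3 ≤ m ∧ (m : K) ≠ 0 then (exists_cc m h.1 h.2).choose else 1

lemma cf_ne (m : ℕ) : cf K m ≠ 0 := by
  unfold cf
  split_ifs with h
  · exact (exists_cc m h.1 h.2).choose_spec.choose_spec.1
  · exact one_ne_zero

lemma cf_spec (m : ℕ) (hm : 3 ≤ m) (hmK : (m : K) ≠ 0) : ∃ z : K, z ^ m = 1 ∧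
    z ^ 2 ≠ 1 ∧ (Even m → z ^ (m / 2) = -1) ∧ z + z⁻¹ = cf K m * cf K m - 2 := by
  unfold cf
  rw [dif_pos ⟨hm, hmK⟩]
  obtain ⟨z, hz⟩ := (exists_cc m hm hmK).choose_spec
  exact ⟨z, hz.2⟩

/-- the basic Cartan matrix -/
noncomputable def a0 {B : Type*} [DecidableEq B] (M : CoxeterMatrix B) (K : Type*) [Field K]
    [IsAlgClosed K] (i j : B) : K :=
  if i = j then 2 else if M i j = 2 then 0 else - cf K (M i j)

lemma good_aw {B : Type*} [Fintype B] [DecidableEq B] (M : CoxeterMatrix B)
    (hM : ∀ i j, M i j ≠ 0 → ((M i j : ℕ) : K) ≠ 0) (σ : Equiv.Perm B)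
    (h2 : ∀ i, σ i ≠ i → σ (σ i) ≠ i) {e : K} (he : e ≠ 0) :
    Good M (aw (a0 M K) σ e) := by
  have hx : ∀ i j, i ≠ j → xw σ e i j * xw σ e j i = 1 := by
    intro i j hij
    unfold xw
    by_cases h : j = σ i
    · have h3 : i ≠ σ j := by
        intro h4
        rw [h] at h4
        exact h2 i (fun e => hij (by rw [h, e])) h4.symm
      rw [if_pos h, if_neg h3, if_pos h.symm, inv_mul_cancel₀ he]
    · by_cases h4 : i = σ j
      · rw [if_neg h, if_pos h4.symm, if_pos h4, mul_inv_cancel₀ he]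
      · rw [if_neg h, if_neg (fun e => h4 e.symm), if_neg h4, if_neg (fun e => h e.symm), mul_one]
  constructor
  · intro i
    simp [aw, a0]
  · intro i j hij
    have hne : i ≠ j := by
      rintro rfl
      rw [M.diagonal] at hij
      norm_num at hij
    simp [aw, a0, hne, hij]
  · intro i j hne h0 h2'
    have h1 : M i j ≠ 1 := M.off_diagonal i j hne
    obtain ⟨z, z1, z2, z3, z4⟩ := cf_spec (K := K) (M i j) (by omega) (hM i j h0)
    refine ⟨z, z1, z2, z3, ?_⟩
    rw [z4]
    have hji : M j i = M i j := M.symmetric j i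
    have e1 : aw (a0 M K) σ e i j * aw (a0 M K) σ e j i =
        (cf K (M i j) * cf K (M i j)) * (xw σ e i j * xw σ e j i) := by
      simp only [aw, a0, if_neg hne, if_neg hne.symm, hji, if_neg h2']
      ring
    rw [e1, hx i j hne, mul_one]

end params

section field

variable {B : Type} [Fintype B] [DecidableEq B] {W : Type*} [Group W] {M : CoxeterMatrix B}
  (cs : CoxeterSystem M W)

lemma map_Rmat {F K : Type*} [Field F] [Field K] (f : F →+* K) (a : B → B → F) (i : B) :
    f.mapMatrix (Rmat a i) = Rmat (fun x y => f (a x y)) i := by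
  ext x y
  simp [Rmat, Matrix.vecMulVec, Matrix.one_apply, Pi.single_apply]
  split_ifs <;> simp

/-- a finite quotient from a Cartan matrix over an algebraic extension of a finite field -/
theorem sep_of_det {p : ℕ} [Fact p.Prime] {K : Type} [Field K] [Algebra (ZMod p) K]
    [Algebra.IsAlgebraic (ZMod p) K] (a : B → B → K) (hg : Good M a) {l l' : List B}
    (hl : l.Nodup) (hl' : l'.Nodup) {y : K} (hy : (Nmat a l y).det ≠ (Nmat a l' y).det) :
    ∃ (F : Type) (_ : Group F) (_ : Finite F) (φ : W →* F),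
      ¬ IsConj (φ (cs.wordProd l)) (φ (cs.wordProd l')) := by
  classical
  let S : Set K := Set.range (fun ij : B × B => a ij.1 ij.2)
  have : Finite S := Set.finite_range _
  let F₀ := IntermediateField.adjoin (ZMod p) S
  have hfd : FiniteDimensional (ZMod p) F₀ := IntermediateField.finiteDimensional_adjoin
    (fun x _ => (Algebra.IsAlgebraic.isAlgebraic x).isIntegral)
  have hfin : Finite F₀ := Module.finite_of_finite (ZMod p)
  let a' : B → B → F₀ := fun i j => ⟨a i j, IntermediateField.subset_adjoin _ _ ⟨(i, j), rfl⟩⟩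
  let f : F₀ →+* K := algebraMap F₀ K
  have hf : Function.Injective f := f.injective
  have haa : (fun x y => f (a' x y)) = a := rfl
  have hlift : M.IsLiftable (Rmat a') := by
    intro i j
    apply (Matrix.map_injective hf : Function.Injective (fun X : Matrix B B F₀ => X.map f))
    change f.mapMatrix ((Rmat a' i * Rmat a' j) ^ M i j) = f.mapMatrix 1
    rw [map_pow, map_mul, map_one, map_Rmat, map_Rmat, haa]
    exact liftable hg i j
  let ψ : W →* Matrix B B F₀ := cs.lift ⟨Rmat a', hlift⟩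
  have hψ : ∀ l : List B, ψ (cs.wordProd l) = (l.map (Rmat a')).prod := by
    intro l
    induction l with
    | nil => simp
    | cons i t ih =>
      rw [cs.wordProd_cons, map_mul, ih, List.map_cons, List.prod_cons]
      congr 1
      exact cs.lift_apply_simple hlift i
  have hψ' : ∀ l : List B, f.mapMatrix (ψ (cs.wordProd l)) = (l.map (Rmat a)).prod := by
    intro l
    rw [hψ, map_list_prod, List.map_map]
    congr 1
    apply List.map_congr_left
    intro i _
    rw [Function.comp_apply, map_Rmat, haa]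
  refine ⟨(Matrix B B F₀)ˣ, inferInstance, inferInstance, ψ.toHomUnits, fun hc => hy ?_⟩
  rw [isConj_iff] at hc
  obtain ⟨g, hg'⟩ := hc
  have h1 : (g : Matrix B B F₀) * ψ (cs.wordProd l) * ((g⁻¹ : (Matrix B B F₀)ˣ) : Matrix B B F₀) =
      ψ (cs.wordProd l') := by
    have := congrArg (fun u : (Matrix B B F₀)ˣ => (u : Matrix B B F₀)) hg'
    simpa using this
  have h2 := congrArg f.mapMatrix h1
  rw [map_mul, map_mul, hψ', hψ'] at h2
  apply det_N_conj a hg.diag hl hl' (g := f.mapMatrix (g : Matrix B B F₀))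
    (h := f.mapMatrix ((g⁻¹ : (Matrix B B F₀)ˣ) : Matrix B B F₀)) _ h2.symm
  rw [← map_mul, Units.mul_inv, map_one]

end field

/-- the Coxeter graph on the letters of `l` -/
def gr {B : Type*} (M : CoxeterMatrix B) (l : List B) : SimpleGraph B where
  Adj i j := i ≠ j ∧ M i j ≠ 2 ∧ i ∈ l ∧ j ∈ l
  symm := ⟨fun i j h => ⟨h.1.symm, by rw [M.symmetric]; exact h.2.1, h.2.2.2, h.2.2.1⟩⟩
  loopless := ⟨fun _ h => h.1 rfl⟩

/-- any two words with the same letters, each at most once, are conjugate or separated -/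
theorem pair_sep {B : Type} [Finite B] {W : Type*} [Group W] {M : CoxeterMatrix B}
    (cs : CoxeterSystem M W) (l l' : List B) (hl : l.Nodup) (hp : l.Perm l')
    (hnc : ¬ IsConj (cs.wordProd l) (cs.wordProd l')) :
    ∃ (F : Type) (_ : Group F) (_ : Finite F) (φ : W →* F),
      ¬ IsConj (φ (cs.wordProd l)) (φ (cs.wordProd l')) := by
  classical
  have := Fintype.ofFinite B
  have hl' : l'.Nodup := hp.nodup_iff.1 hl
  have hanti : ∀ u v, (gr M l).Adj u v → dif l l' v u = - dif l l' u v := by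
    intro u v huv
    have h1 : l.idxOf u ≠ l.idxOf v := fun e => huv.1 ((List.idxOf_inj huv.2.2.1).1 e)
    have h2 : l'.idxOf u ≠ l'.idxOf v :=
      fun e => huv.1 ((List.idxOf_inj (hp.mem_iff.1 huv.2.2.1)).1 e)
    unfold dif
    split_ifs <;> omega
  have hno : ¬ ∃ h : B → ℤ, ∀ u v, (gr M l).Adj u v → dif l l' u v = h u - h v := by
    rintro ⟨h, hh⟩
    apply hnc
    obtain ⟨m, hm⟩ : ∃ m : ℤ, ∀ i : B, m ≤ h i := by
      obtain ⟨m, hm⟩ := (Set.finite_range h).bddBelow
      exact ⟨m, fun i => hm ⟨i, rfl⟩⟩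
    apply conj_of_pot cs l' _ l (fun i => (h i - m).toNat) rfl hl hp
    intro i hi j hj hij hM
    rw [hh i j ⟨hij, hM, hi, hj⟩]
    have := hm i
    have := hm j
    omega
  obtain ⟨σ, hσ, hsum⟩ := exists_perm (G := gr M l) (dif l l') hanti hno
  -- the flows differ
  have hmem : ∀ i, σ i ≠ i → i ∈ l := fun i hi => (hσ i hi).1.2.2.1
  have hmem2 : ∀ i, σ i ≠ i → σ i ∈ l := fun i hi => (hσ i hi).1.2.2.2
  have hfl : fl σ l ≠ fl σ l' := by
    intro hf
    apply hsum
    have e1 : ∀ k : List B, (∀ i, σ i ≠ i → σ i ∈ k) → (fl σ k : ℤ) =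
        ∑ v ∈ univ.filter (fun v => σ v ≠ v), (if k.idxOf v < k.idxOf (σ v) then (1 : ℤ) else 0) := by
      intro k hk
      rw [← Finset.sum_filter, Finset.sum_const, fl, Finset.filter_filter]
      simp only [nsmul_eq_mul, mul_one, Nat.cast_inj]
      congr 1
      ext v
      simp only [Finset.mem_filter, Finset.mem_univ, true_and]
      unfold aft
      constructor
      · rintro ⟨h1, _, h3⟩; exact ⟨h1, h3⟩
      · rintro ⟨h1, h3⟩; exact ⟨h1, hk v h1, h3⟩
    unfold dif
    rw [Finset.sum_sub_distrib, ← e1 l hmem2, ← e1 l' (fun i hi => hp.mem_iff.1 (hmem2 i hi)), hf,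
      sub_self]
  -- a prime
  obtain ⟨N, hN⟩ : ∃ N : ℕ, ∀ i j, M i j ≤ N := by
    obtain ⟨N, hN⟩ := (Set.finite_range (fun ij : B × B => M ij.1 ij.2)).bddAbove
    exact ⟨N, fun i j => hN ⟨(i, j), rfl⟩⟩
  obtain ⟨p, hpN, hpp⟩ := Nat.exists_infinite_primes (N + 1)
  have : Fact p.Prime := ⟨hpp⟩
  let K := AlgebraicClosure (ZMod p)
  have hM : ∀ i j, M i j ≠ 0 → ((M i j : ℕ) : K) ≠ 0 := by
    intro i j h0 h
    have hd := (CharP.cast_eq_zero_iff K p (M i j)).1 h
    have := Nat.le_of_dvd (Nat.pos_of_ne_zero h0) hd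
    have := hN i j
    omega
  have hinf : Infinite K := inferInstance
  obtain ⟨e, y, he, hdet⟩ := exists_good_params (a0 M K) σ l l' hmem
    (fun i hi => hp.mem_iff.1 (hmem i hi))
    (by
      intro i hi
      unfold a0
      rw [if_neg hi.symm, if_neg (hσ i hi).1.2.1]
      exact neg_ne_zero.2 (cf_ne _)) hfl
  have halg : Algebra.IsAlgebraic (ZMod p) K := inferInstance
  exact sep_of_det (p := p) cs (aw (a0 M K) σ e) (good_aw M hM σ (fun i hi => (hσ i hi).2) he) hl hl' hdet

/-- **Theorem.** For every Coxeter system of finite rank there is one finite quotient in which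
no two non-conjugate products of the same distinct generators become conjugate. -/
theorem main {B : Type} [Finite B] {W : Type*} [Group W] {M : CoxeterMatrix B}
    (cs : CoxeterSystem M W) :
    ∃ (F : Type) (_ : Group F) (_ : Finite F) (φ : W →* F),
      ∀ l l' : List B, l.Nodup → l.Perm l' →
        (IsConj (φ (cs.wordProd l)) (φ (cs.wordProd l')) ↔
          IsConj (cs.wordProd l) (cs.wordProd l')) := by
  classical
  have := Fintype.ofFinite B
  let P := {q : {l : List B // l.Nodup} × {l : List B // l.Nodup} //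
    q.1.1.Perm q.2.1 ∧ ¬ IsConj (cs.wordProd q.1.1) (cs.wordProd q.2.1)}
  have hP : ∀ q : P, ∃ (F : Type) (_ : Group F) (_ : Finite F) (φ : W →* F),
      ¬ IsConj (φ (cs.wordProd q.1.1.1)) (φ (cs.wordProd q.1.2.1)) := fun q =>
    pair_sep cs q.1.1.1 q.1.2.1 q.1.1.2 q.2.1 q.2.2
  choose F hF hfin φ hφ using hP
  refine ⟨∀ q : P, F q, inferInstance, inferInstance, MonoidHom.pi φ, ?_⟩
  intro l l' hl hp
  constructor
  · intro h
    by_contra hcon
    let q : P := ⟨(⟨l, hl⟩, ⟨l', hp.nodup_iff.1 hl⟩), hp, hcon⟩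
    apply hφ q
    exact (Pi.evalMonoidHom F q).map_isConj h
  · intro h
    exact (MonoidHom.pi φ).map_isConj h

end Cx39
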