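import Pool.Agent.Work.MP_64ea0f_al_39.Det

/-! Coxeter words with the same orientation, and source-sink moves. -/

set_option autoImplicit false

namespace Cx39

variable {B : Type*} [DecidableEq B] {W : Type*} [Group W] {M : CoxeterMatrix B}
  (cs : CoxeterSystem M W)

omit [DecidableEq B] in
lemma comm_of_two {i j : B} (h : M i j = 2) : cs.simple i * cs.simple j =
    cs.simple j * cs.simple i := by
  have h1 := cs.simple_mul_simple_pow i j
  rw [h, sq] at h1
  have h2 : cs.simple i * cs.simple j = (cs.simple i * cs.simple j)⁻¹ := eq_inv_of_mul_eq_one_left h1
  rw [mul_inv_rev, cs.inv_simple, cs.inv_simple] at h2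
  exact h2

omit [DecidableEq B] in
lemma comm_wordProd {a : B} (u : List B) (h : ∀ b ∈ u, M b a = 2) :
    cs.wordProd u * cs.simple a = cs.simple a * cs.wordProd u := by
  induction u with
  | nil => simp
  | cons b t ih =>
    rw [cs.wordProd_cons, mul_assoc, ih (fun c hc => h c (List.mem_cons_of_mem _ hc)), ← mul_assoc,
      comm_of_two cs (h b List.mem_cons_self), mul_assoc]

lemma idxOf_mid {u v : List B} {a i : B} (hi : i ≠ a) :
    (u ++ a :: v).idxOf i = if i ∈ u then u.idxOf i else (u ++ v).idxOf i + 1 := by
  rw [List.idxOf_append]
  split_ifs with h
  · rfl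
  · rw [List.idxOf_cons_ne _ hi.symm, List.idxOf_append_of_notMem h]
    omega

lemma idxOf_app {u v : List B} {i : B} :
    (u ++ v).idxOf i = if i ∈ u then u.idxOf i else v.idxOf i + u.length := by
  rw [List.idxOf_append]

lemma bef_mid {u v : List B} {a i j : B} (hi : i ≠ a) (hj : j ≠ a) :
    (u ++ a :: v).idxOf i < (u ++ a :: v).idxOf j ↔ (u ++ v).idxOf i < (u ++ v).idxOf j := by
  rw [List.idxOf_append, List.idxOf_append, List.idxOf_append, List.idxOf_append,
    List.idxOf_cons_ne _ hi.symm, List.idxOf_cons_ne _ hj.symm]
  have h1 : i ∈ u → u.idxOf i < u.length := fun h => List.idxOf_lt_length_iff.2 h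
  have h2 : j ∈ u → u.idxOf j < u.length := fun h => List.idxOf_lt_length_iff.2 h
  split_ifs with a1 a2 a2
  · exact Iff.rfl
  · have := h1 a1
    constructor <;> intro _ <;> omega
  · have := h2 a2
    constructor <;> intro _ <;> omega
  · constructor <;> intro _ <;> omega

/-- words with the same letters, each once, and the same orientation have the same product -/
lemma prod_eq_of_same : ∀ (l' l : List B), l.Nodup → l.Perm l' →
    (∀ i ∈ l, ∀ j ∈ l, i ≠ j → M i j ≠ 2 →
      (l.idxOf i < l.idxOf j ↔ l'.idxOf i < l'.idxOf j)) →
    cs.wordProd l = cs.wordProd l' := by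
  intro l'
  induction l' with
  | nil => intro l _ hp _; rw [List.perm_nil.1 hp]
  | cons a t ih =>
    intro l hn hp h
    have ha : a ∈ l := hp.mem_iff.2 List.mem_cons_self
    obtain ⟨u, v, rfl⟩ := List.append_of_mem ha
    have hau : a ∉ u := by
      intro hau
      rw [List.nodup_append] at hn
      exact hn.2.2 a hau a List.mem_cons_self rfl
    have hav : a ∉ v := by
      intro hav
      rw [List.nodup_append] at hn
      exact (List.nodup_cons.1 hn.2.1).1 hav
    have hcomm : ∀ b ∈ u, M b a = 2 := by
      intro b hb
      by_contra hM
      have hba : b ≠ a := by rintro rfl; exact hau hb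
      have h1 := (h b (by simp [hb]) a ha hba hM).1 (by
        rw [List.idxOf_append_of_mem hb, List.idxOf_append_of_notMem hau]
        have := List.idxOf_lt_length_iff.2 hb
        omega)
      rw [List.idxOf_cons_self] at h1
      exact absurd h1 (Nat.not_lt_zero _)
    have hp' : (u ++ v).Perm t := by
      have : (a :: (u ++ v)).Perm (a :: t) := (List.perm_middle.symm).trans hp
      exact List.perm_cons a |>.1 this
    have hn' : (u ++ v).Nodup := by
      have : (a :: (u ++ v)).Nodup := (List.perm_middle.nodup_iff).1 hn
      exact (List.nodup_cons.1 this).2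
    have hat : a ∉ t := by
      intro hat
      have := hp'.mem_iff.2 hat
      rw [List.mem_append] at this
      rcases this with h | h
      · exact hau h
      · exact hav h
    rw [cs.wordProd_append, cs.wordProd_cons, ← mul_assoc, comm_wordProd cs u hcomm, mul_assoc,
      ← cs.wordProd_append, cs.wordProd_cons]
    congr 1
    apply ih _ hn' hp'
    intro i hi j hj hij hM
    have hia : i ≠ a := by
      rintro rfl
      exact hat (hp'.mem_iff.1 hi)
    have hja : j ≠ a := by
      rintro rfl
      exact hat (hp'.mem_iff.1 hj)
    have hi' : i ∈ u ++ a :: v := by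
      rw [List.mem_append] at hi ⊢
      rcases hi with h | h
      · exact Or.inl h
      · exact Or.inr (List.mem_cons_of_mem _ h)
    have hj' : j ∈ u ++ a :: v := by
      rw [List.mem_append] at hj ⊢
      rcases hj with h | h
      · exact Or.inl h
      · exact Or.inr (List.mem_cons_of_mem _ h)
    have h1 := h i hi' j hj' hij hM
    rw [bef_mid hia hja, List.idxOf_cons_ne _ hia.symm, List.idxOf_cons_ne _ hja.symm] at h1
    rw [h1]
    omega

lemma idx_filter (p : B → Bool) (l : List B) {i j : B} (hi : p i = true) (hj : p j = true) :
    (l.filter p).idxOf i < (l.filter p).idxOf j ↔ l.idxOf i < l.idxOf j := by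
  induction l with
  | nil => simp
  | cons a t ih =>
    by_cases hpa : p a = true
    · rw [List.filter_cons_of_pos hpa]
      rcases eq_or_ne i a with rfl | hia
      · rcases eq_or_ne j i with rfl | hji
        · simp
        · rw [List.idxOf_cons_self, List.idxOf_cons_self, List.idxOf_cons_ne _ hji.symm,
            List.idxOf_cons_ne _ hji.symm]
          simp
      · rcases eq_or_ne j a with rfl | hja
        · simp
        · rw [List.idxOf_cons_ne _ hia.symm, List.idxOf_cons_ne _ hja.symm,
            List.idxOf_cons_ne _ hia.symm, List.idxOf_cons_ne _ hja.symm]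
          have := ih
          omega
    · rw [List.filter_cons_of_neg hpa]
      have hia : i ≠ a := by rintro rfl; exact hpa hi
      have hja : j ≠ a := by rintro rfl; exact hpa hj
      rw [ih, List.idxOf_cons_ne _ hia.symm, List.idxOf_cons_ne _ hja.symm]
      omega

lemma idx_split (p : B → Bool) (l : List B) {i j : B} (hi : i ∈ l) (hj : j ∈ l) :
    (l.filter p ++ l.filter (fun x => !p x)).idxOf i <
      (l.filter p ++ l.filter (fun x => !p x)).idxOf j ↔
    (if p i = true then (if p j = true then l.idxOf i < l.idxOf j else True)
      else (if p j = true then False else l.idxOf i < l.idxOf j)) := by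
  have key : ∀ k ∈ l, p k = true → k ∈ l.filter p := fun k hk hp => by simp [hk, hp]
  have key2 : ∀ k, ¬ (p k = true) → k ∉ l.filter p := fun k hp => by simp [hp]
  by_cases pi : p i = true
  · by_cases pj : p j = true
    · rw [if_pos pi, if_pos pj, List.idxOf_append_of_mem (key i hi pi),
        List.idxOf_append_of_mem (key j hj pj), idx_filter p l pi pj]
    · rw [if_pos pi, if_neg pj, List.idxOf_append_of_mem (key i hi pi),
        List.idxOf_append_of_notMem (key2 j pj)]
      have := List.idxOf_lt_length_iff.2 (key i hi pi)
      simp only [iff_true]
      omega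
  · by_cases pj : p j = true
    · rw [if_neg pi, if_pos pj, List.idxOf_append_of_notMem (key2 i pi),
        List.idxOf_append_of_mem (key j hj pj)]
      have := List.idxOf_lt_length_iff.2 (key j hj pj)
      simp only [iff_false]
      omega
    · rw [if_neg pi, if_neg pj, List.idxOf_append_of_notMem (key2 i pi),
        List.idxOf_append_of_notMem (key2 j pj)]
      have := idx_filter (fun x => !p x) l (i := i) (j := j) (by simpa using pi) (by simpa using pj)
      omega

/-- orientation difference -/
def dif (l l' : List B) (i j : B) : ℤ :=
  (if l.idxOf i < l.idxOf j then 1 else 0) - (if l'.idxOf i < l'.idxOf j then 1 else 0)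

/-- the flipping lemma -/
theorem conj_of_pot (l' : List B) : ∀ (n : ℕ) (l : List B) (h : B → ℕ), (l.map h).sum = n →
    l.Nodup → l.Perm l' →
    (∀ i ∈ l, ∀ j ∈ l, i ≠ j → M i j ≠ 2 → dif l l' i j = h i - h j) →
    IsConj (cs.wordProd l) (cs.wordProd l') := by
  intro n
  induction n using Nat.strong_induction_on with
  | _ n ih =>
    intro l h hsum hn hp hd
    by_cases hz : ∀ i ∈ l, h i = 0
    · rw [prod_eq_of_same cs l' l hn hp]
      intro i hi j hj hij hM
      have := hd i hi j hj hij hM
      rw [hz i hi, hz j hj] at this
      unfold dif at this
      split_ifs at this with a1 a2 a2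
      · exact iff_of_true a1 a2
      · norm_num at this
      · norm_num at this
      · exact iff_of_false a1 a2
    · push Not at hz
      obtain ⟨x, hx, hxh⟩ := hz
      set p : B → Bool := fun i => decide (h i ≠ 0) with hpd
      have pp : ∀ i, p i = true ↔ h i ≠ 0 := fun i => by simp [hpd]
      -- X first
      have e1 : cs.wordProd l = cs.wordProd (l.filter p ++ l.filter (fun x => !p x)) := by
        apply prod_eq_of_same cs _ _ hn
        · exact (List.filter_append_perm p l).symm
        · intro i hi j hj hij hM
          rw [idx_split p l hi hj]
          by_cases pi : p i = true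
          · by_cases pj : p j = true
            · rw [if_pos pi, if_pos pj]
            · rw [if_pos pi, if_neg pj, iff_true]
              have h1 := hd i hi j hj hij hM
              have h2 := (pp i).1 pi
              have h3 : h j = 0 := by
                by_contra h4
                exact pj ((pp j).2 h4)
              unfold dif at h1
              split_ifs at h1 with a1 a2 a2
              · exact a1
              · exact a1
              · omega
              · omega
          · by_cases pj : p j = true
            · rw [if_neg pi, if_pos pj, iff_false]
              have h1 := hd i hi j hj hij hM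
              have h2 := (pp j).1 pj
              have h3 : h i = 0 := by
                by_contra h4
                exact pi ((pp i).2 h4)
              unfold dif at h1
              split_ifs at h1 with a1 a2 a2
              · omega
              · omega
              · exact a1
              · exact a1
            · rw [if_neg pi, if_neg pj]
      set q : B → Bool := fun x => !p x with hq
      have qq : ∀ x, (!q x) = p x := fun x => by simp [hq]
      set l1 := l.filter q ++ l.filter p with hl1
      have e1' : cs.wordProd l = cs.wordProd (l.filter p) * cs.wordProd (l.filter q) := by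
        rw [e1, cs.wordProd_append]
      have e2 : IsConj (cs.wordProd l) (cs.wordProd l1) := by
        rw [e1', hl1, cs.wordProd_append]
        rw [isConj_iff]
        exact ⟨(cs.wordProd (l.filter p))⁻¹, by group⟩
      have hperm : l1.Perm l := by
        have := List.filter_append_perm q l
        have e : (fun x => !q x) = p := funext qq
        rw [e] at this
        exact this
      refine e2.trans (ih ((l1.map (fun i => h i - 1)).sum) ?_ l1 (fun i => h i - 1) rfl
        (hperm.nodup_iff.2 hn) (hperm.trans hp) ?_)
      · rw [← hsum, (hperm.map (fun i => h i - 1)).sum_eq]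
        apply List.sum_lt_sum
        · intro i _; exact Nat.sub_le _ _
        · exact ⟨x, hx, by omega⟩
      · intro i hi1 j hj1 hij hM
        have hi := hperm.mem_iff.1 hi1
        have hj := hperm.mem_iff.1 hj1
        have h1 := hd i hi j hj hij hM
        have h1' := hd j hj i hi hij.symm (by rw [M.symmetric]; exact hM)
        have hs := idx_split q l hi hj
        have e : (fun x => !q x) = p := funext qq
        rw [e, ← hl1] at hs
        unfold dif
        have qi : q i = true ↔ h i = 0 := by simp [hq, hpd]
        have qj : q j = true ↔ h j = 0 := by simp [hq, hpd]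
        unfold dif at h1 h1'
        have hne : l.idxOf i ≠ l.idxOf j := fun e => hij ((List.idxOf_inj hi).1 e)
        have hne' : l'.idxOf i ≠ l'.idxOf j := fun e => hij ((List.idxOf_inj (hp.mem_iff.1 hi)).1 e)
        by_cases q1 : q i = true
        · by_cases q2 : q j = true
          · have z1 := qi.1 q1
            have z2 := qj.1 q2
            rw [if_pos q1, if_pos q2] at hs
            simp only [hs]
            rw [z1, z2] at h1 ⊢
            simpa using h1
          · have z1 := qi.1 q1
            have z2 : h j ≠ 0 := fun e => q2 (qj.2 e)
            rw [if_pos q1, if_neg q2] at hs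
            rw [if_pos (hs.2 trivial)]
            rw [z1] at h1 h1' ⊢
            clear_value q l1
            clear ih e1 e1' e2 hperm hs e qi qj hd
            split_ifs at h1 h1' ⊢ <;> omega
        · by_cases q2 : q j = true
          · have z1 : h i ≠ 0 := fun e => q1 (qi.2 e)
            have z2 := qj.1 q2
            rw [if_neg q1, if_pos q2] at hs
            rw [if_neg (fun hh => hs.1 hh)]
            rw [z2] at h1 h1' ⊢
            clear_value q l1
            clear ih e1 e1' e2 hperm hs e qi qj hd
            split_ifs at h1 h1' ⊢ <;> omega
          · have z1 : h i ≠ 0 := fun e => q1 (qi.2 e)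
            have z2 : h j ≠ 0 := fun e => q2 (qj.2 e)
            rw [if_neg q1, if_neg q2] at hs
            simp only [hs]
            have : ((h i - 1 : ℕ) : ℤ) - ((h j - 1 : ℕ) : ℤ) = (h i : ℤ) - h j := by omega
            rw [this, ← h1]

end Cx39
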