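import Mathlib

/-! Antisymmetric edge functions on a graph: potentials and cycles. -/

set_option autoImplicit false

namespace Cx39

open SimpleGraph Finset

variable {V : Type*} {G : SimpleGraph V}

/-- the sum of `d` along a walk -/
def ws (d : V → V → ℤ) : ∀ {u v : V}, G.Walk u v → ℤ
  | _, _, Walk.nil => 0
  | u, _, @Walk.cons _ _ _ v _ _ p => d u v + ws d p

@[simp] lemma ws_nil (d : V → V → ℤ) {u : V} : ws d (Walk.nil : G.Walk u u) = 0 := rfl

@[simp] lemma ws_cons (d : V → V → ℤ) {u v w : V} (h : G.Adj u v) (p : G.Walk v w) :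
    ws d (Walk.cons h p) = d u v + ws d p := rfl

lemma ws_append (d : V → V → ℤ) {u v w : V} (p : G.Walk u v) (q : G.Walk v w) :
    ws d (p.append q) = ws d p + ws d q := by
  induction p with
  | nil => simp
  | cons h p ih => simp [ih, add_assoc]

lemma ws_reverse (d : V → V → ℤ) (ha : ∀ u v, G.Adj u v → d v u = - d u v) {u v : V}
    (p : G.Walk u v) : ws d p.reverse = - ws d p := by
  induction p with
  | nil => simp
  | cons h p ih =>
    rw [Walk.reverse_cons, ws_append, ih]
    simp [ha _ _ h]

lemma path_back [DecidableEq V] (d : V → V → ℤ) {u v : V} (huv : G.Adj u v) (p : G.Walk v u)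
    (hp : p.IsPath) (he : s(u, v) ∈ p.edges) : ws d p = d v u := by
  cases p with
  | nil => exact absurd huv (G.loopless.irrefl _)
  | @cons _ x _ h q =>
    rw [Walk.edges_cons, List.mem_cons] at he
    have hq := (Walk.cons_isPath_iff h q).1 hp
    rcases he with he | he
    · have hx : x = u := by
        rw [Sym2.eq_iff] at he
        rcases he with ⟨h1, h2⟩ | ⟨h1, h2⟩
        · exact absurd (h1 ▸ huv) (by rw [← h1]; exact G.loopless.irrefl _)
        · exact h1.symm
      subst hx
      have h0 : ws d q = 0 := by
        have hn := Walk.isPath_iff_nil.1 hq.1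
        cases q with
        | nil => rfl
        | cons _ _ => simp at hn
      rw [ws_cons, h0, add_zero]
    · exact absurd (Walk.snd_mem_support_of_mem_edges q he) hq.2

lemma ws_bypass [DecidableEq V] (d : V → V → ℤ) (ha : ∀ u v, G.Adj u v → d v u = - d u v)
    (hc : ∀ u (c : G.Walk u u), c.IsCycle → ws d c = 0) {u v : V} (p : G.Walk u v) :
    ws d p.bypass = ws d p := by
  induction p with
  | nil => simp [Walk.bypass]
  | @cons u v w h p ih =>
    rw [Walk.bypass]
    split_ifs with hs
    · have h1 := Walk.take_spec p.bypass hs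
      have h2 : ws d (p.bypass.takeUntil u hs) + ws d (p.bypass.dropUntil u hs) = ws d p := by
        rw [← ws_append, h1, ih]
      have h3 : d u v + ws d (p.bypass.takeUntil u hs) = 0 := by
        have hpath : (p.bypass.takeUntil u hs).IsPath := (p.bypass_isPath).takeUntil hs
        by_cases he : s(u, v) ∈ (p.bypass.takeUntil u hs).edges
        · rw [path_back d h _ hpath he, ha u v h]
          ring
        · have := hc u (Walk.cons h (p.bypass.takeUntil u hs))
            ((Walk.cons_isCycle_iff _ h).2 ⟨hpath, he⟩)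
          rwa [ws_cons] at this
      rw [ws_cons]
      linarith
    · rw [ws_cons, ws_cons, ih]

lemma ws_closed [DecidableEq V] (d : V → V → ℤ) (ha : ∀ u v, G.Adj u v → d v u = - d u v)
    (hc : ∀ u (c : G.Walk u u), c.IsCycle → ws d c = 0) {u : V} (p : G.Walk u u) :
    ws d p = 0 := by
  rw [← ws_bypass d ha hc p]
  have hn := Walk.isPath_iff_nil.1 p.bypass_isPath
  generalize p.bypass = q at hn
  cases q with
  | nil => rfl
  | cons _ _ => simp at hn

theorem exists_pot [DecidableEq V] (d : V → V → ℤ) (ha : ∀ u v, G.Adj u v → d v u = - d u v)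
    (hc : ∀ u (c : G.Walk u u), c.IsCycle → ws d c = 0) :
    ∃ h : V → ℤ, ∀ u v, G.Adj u v → d u v = h u - h v := by
  classical
  have hr : ∀ v, G.Reachable v (G.connectedComponentMk v).out := by
    intro v
    have : G.connectedComponentMk (G.connectedComponentMk v).out = G.connectedComponentMk v :=
      Quot.out_eq _
    exact (ConnectedComponent.exact this).symm
  let P : ∀ v, G.Walk v (G.connectedComponentMk v).out := fun v => (hr v).some
  refine ⟨fun v => ws d (P v), fun u v huv => ?_⟩
  have hcomp : G.connectedComponentMk u = G.connectedComponentMk v :=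
    ConnectedComponent.sound huv.reachable
  have key : ∀ (x : V) (p : G.Walk v x) (q : G.Walk u x), d u v + ws d p - ws d q = 0 := by
    intro x p q
    have := ws_closed d ha hc ((Walk.cons huv p).append q.reverse)
    rw [ws_append, ws_reverse d ha, ws_cons] at this
    linarith
  have h1 := key _ ((P v).copy rfl (by rw [hcomp])) (P u)
  have h2 : ws d ((P v).copy rfl (by rw [hcomp]) : G.Walk v (G.connectedComponentMk u).out) =
      ws d (P v) := by
    generalize_proofs p1 p2
    revert p2
    generalize (G.connectedComponentMk u).out = z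
    intro p2
    subst p2
    rfl
  rw [h2] at h1
  linarith

lemma ws_getVert (d : V → V → ℤ) {u v : V} (p : G.Walk u v) :
    ws d p = ∑ i ∈ range p.length, d (p.getVert i) (p.getVert (i + 1)) := by
  induction p with
  | nil => simp
  | cons h p ih =>
    rw [ws_cons, Walk.length_cons, Finset.sum_range_succ', ih]
    simp only [Walk.getVert_cons_succ, Walk.getVert_zero]
    rw [add_comm]

/-- either there is a potential or a permutation along a cycle with nonzero sum -/
theorem exists_perm [Fintype V] [DecidableEq V] (d : V → V → ℤ)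
    (ha : ∀ u v, G.Adj u v → d v u = - d u v)
    (hno : ¬ ∃ h : V → ℤ, ∀ u v, G.Adj u v → d u v = h u - h v) :
    ∃ σ : Equiv.Perm V, (∀ v, σ v ≠ v → G.Adj v (σ v) ∧ σ (σ v) ≠ v) ∧
      ∑ v ∈ univ.filter (fun v => σ v ≠ v), d v (σ v) ≠ 0 := by
  by_contra hcon
  push Not at hcon
  apply hno
  apply exists_pot d ha
  intro u c hcyc
  have h3 : 3 ≤ c.length := hcyc.three_le_length
  obtain ⟨k, hk⟩ : ∃ k, c.length = k + 1 := ⟨c.length - 1, by omega⟩
  have hinj : Function.Injective (fun i : Fin (k + 1) => c.getVert i) := by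
    intro i j hij
    exact Fin.ext (hcyc.getVert_injOn' (show i.val ≤ c.length - 1 by omega)
      (show j.val ≤ c.length - 1 by omega) hij)
  have hinj2 : ∀ x y : ℕ, x ≤ k → y ≤ k → c.getVert x = c.getVert y → x = y := by
    intro x y hx hy hxy
    exact hcyc.getVert_injOn' (show x ≤ c.length - 1 by omega) (show y ≤ c.length - 1 by omega) hxy
  let f : Fin (k + 1) ↪ V := ⟨fun i => c.getVert i, hinj⟩
  let σ := (finRotate (k + 1)).viaFintypeEmbedding f
  have hlast : c.getVert (k + 1) = c.getVert 0 := by
    rw [← hk, Walk.getVert_length, Walk.getVert_zero]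
  have hσ : ∀ i : Fin (k + 1), σ (c.getVert i) = c.getVert (i + 1) := by
    intro i
    have h1 : σ (f i) = f (finRotate (k + 1) i) :=
      Equiv.Perm.viaFintypeEmbedding_apply_image _ _ _
    have h2 : f (finRotate (k + 1) i) = c.getVert (i + 1) := by
      rcases eq_or_ne i (Fin.last k) with rfl | hi
      · rw [finRotate_last]
        change c.getVert ((0 : Fin (k + 1)) : ℕ) = _
        rw [Fin.val_last, hlast]
        rfl
      · change c.getVert ((finRotate (k + 1) i : Fin (k + 1)) : ℕ) = _
        rw [coe_finRotate_of_ne_last hi]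
    exact h1.trans h2
  have hσ' : ∀ v, v ∉ Set.range f → σ v = v := fun v hv =>
    Equiv.Perm.viaFintypeEmbedding_apply_notMem_range _ _ hv
  have hadj : ∀ i : Fin (k + 1), G.Adj (c.getVert i) (c.getVert (i + 1)) := fun i =>
    c.adj_getVert_succ (by rw [hk]; exact i.2)
  have hsupp : univ.filter (fun v => σ v ≠ v) = univ.map f := by
    ext v
    simp only [mem_filter, mem_univ, true_and, mem_map]
    constructor
    · intro hv
      by_contra hcon2
      exact hv (hσ' v (by rintro ⟨i, hi⟩; exact hcon2 ⟨i, hi⟩))
    · rintro ⟨i, rfl⟩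
      change σ (c.getVert i) ≠ c.getVert i
      rw [hσ]
      exact (hadj i).ne'
  have hsum : ∑ v ∈ univ.filter (fun v => σ v ≠ v), d v (σ v) = ws d c := by
    rw [hsupp, Finset.sum_map, ws_getVert, hk, ← Fin.sum_univ_eq_sum_range
      (fun i => d (c.getVert i) (c.getVert (i + 1)))]
    refine Finset.sum_congr rfl fun i _ => ?_
    change d (c.getVert i) (σ (c.getVert i)) = _
    rw [hσ]
  rw [← hsum]
  apply hcon σ
  intro v hv
  by_cases hvr : v ∈ Set.range f
  · obtain ⟨i, rfl⟩ := hvr
    change G.Adj (c.getVert i) (σ (c.getVert i)) ∧ σ (σ (c.getVert i)) ≠ c.getVert i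
    refine ⟨by rw [hσ]; exact hadj i, ?_⟩
    rw [hσ]
    intro h
    -- the successor
    rcases lt_or_eq_of_le (Nat.lt_succ_iff.1 i.2) with hi | hi
    · have h1 := hσ ⟨i + 1, by omega⟩
      rw [h1] at h
      change c.getVert (i + 1 + 1) = c.getVert i at h
      rcases Nat.lt_or_ge (i + 1 + 1) (k + 1) with h4 | h4
      · have := hinj2 _ _ (by omega) (by omega) h
        omega
      · have h5 : (i : ℕ) + 1 + 1 = k + 1 := by omega
        rw [h5, hlast] at h
        have := hinj2 _ _ (by omega) (by omega) h
        omega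
    · rw [hi, hlast] at h
      have h1 := hσ ⟨0, by omega⟩
      change σ (c.getVert 0) = c.getVert 1 at h1
      rw [h1] at h
      have := hinj2 _ _ (by omega) (by omega) h
      omega
  · exact absurd (hσ' v hvr) hv

end Cx39
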