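import Mathlib

/-! Reflection representations of Coxeter groups by (not necessarily symmetrizable) Cartan
matrices over a field. -/

set_option autoImplicit false

namespace Cx39

open Polynomial

section cheb

variable {K : Type*} [Field K]

lemma S_eval (z : K) (hz : z ≠ 0) (n : ℤ) :
    (Chebyshev.S K n).eval (z + z⁻¹) * (z - z⁻¹) = z ^ (n + 1) - z ^ (-(n + 1)) := by
  induction n using Polynomial.Chebyshev.induct with
  | zero => simp
  | one =>
    simp only [Chebyshev.S_one, eval_X]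
    have : (z : K) ^ ((1 : ℤ) + 1) = z * z := by
      rw [zpow_add₀ hz]; simp
    have h2 : (z : K) ^ (-((1 : ℤ) + 1)) = z⁻¹ * z⁻¹ := by
      rw [zpow_neg, this, mul_inv]
    rw [this, h2]
    ring
  | add_two n ih1 ih0 =>
    rw [Chebyshev.S_add_two]
    simp only [eval_sub, eval_mul, eval_X]
    have e : ((z + z⁻¹) * eval (z + z⁻¹) (Chebyshev.S K (↑n + 1)) -
        eval (z + z⁻¹) (Chebyshev.S K ↑n)) * (z - z⁻¹) =
        (z + z⁻¹) * (eval (z + z⁻¹) (Chebyshev.S K (↑n + 1)) * (z - z⁻¹)) -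
        eval (z + z⁻¹) (Chebyshev.S K ↑n) * (z - z⁻¹) := by ring
    rw [e, ih1, ih0]
    have a1 : (z : K) ^ ((n : ℤ) + 2 + 1) = z * z ^ ((n : ℤ) + 1 + 1) := by
      rw [show ((n : ℤ) + 2 + 1) = 1 + ((n : ℤ) + 1 + 1) by ring, zpow_add₀ hz]; simp
    have a2 : (z : K) ^ (-((n : ℤ) + 2 + 1)) = z⁻¹ * z ^ (-((n : ℤ) + 1 + 1)) := by
      rw [show (-((n : ℤ) + 2 + 1)) = -1 + (-((n : ℤ) + 1 + 1)) by ring, zpow_add₀ hz]; simp
    have a3 : (z : K) ^ ((n : ℤ) + 1) = z⁻¹ * z ^ ((n : ℤ) + 1 + 1) := by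
      rw [zpow_add₀ hz ((n : ℤ) + 1) 1]
      field_simp
    have a4 : (z : K) ^ (-((n : ℤ) + 1)) = z * z ^ (-((n : ℤ) + 1 + 1)) := by
      rw [show (-((n : ℤ) + 1)) = 1 + (-((n : ℤ) + 1 + 1)) by ring, zpow_add₀ hz]; simp
    rw [a1, a2, a3, a4]
    ring
  | neg_add_one n ih0 ih1 =>
    rw [Chebyshev.S_sub_one]
    simp only [eval_sub, eval_mul, eval_X]
    have e : ((z + z⁻¹) * eval (z + z⁻¹) (Chebyshev.S K (-↑n)) -
        eval (z + z⁻¹) (Chebyshev.S K (-↑n + 1))) * (z - z⁻¹) =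
        (z + z⁻¹) * (eval (z + z⁻¹) (Chebyshev.S K (-↑n)) * (z - z⁻¹)) -
        eval (z + z⁻¹) (Chebyshev.S K (-↑n + 1)) * (z - z⁻¹) := by ring
    rw [e, ih1, ih0]
    have a1 : (z : K) ^ (-(n : ℤ) - 1 + 1) = z⁻¹ * z ^ (-(n : ℤ) + 1) := by
      rw [show (-(n : ℤ) - 1 + 1) = -1 + (-(n : ℤ) + 1) by ring, zpow_add₀ hz]; simp
    have a2 : (z : K) ^ (-(-(n : ℤ) - 1 + 1)) = z * z ^ (-(-(n : ℤ) + 1)) := by
      rw [show (-(-(n : ℤ) - 1 + 1)) = 1 + (-(-(n : ℤ) + 1)) by ring, zpow_add₀ hz]; simp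
    have a3 : (z : K) ^ (-(n : ℤ) + 1 + 1) = z * z ^ (-(n : ℤ) + 1) := by
      rw [show (-(n : ℤ) + 1 + 1) = 1 + (-(n : ℤ) + 1) by ring, zpow_add₀ hz]; simp
    have a4 : (z : K) ^ (-(-(n : ℤ) + 1 + 1)) = z⁻¹ * z ^ (-(-(n : ℤ) + 1)) := by
      rw [show (-(-(n : ℤ) + 1 + 1)) = -1 + (-(-(n : ℤ) + 1)) by ring, zpow_add₀ hz]; simp
    rw [a1, a2, a3, a4]
    ring

lemma S_sum_zero {z : K} (hz : z ≠ 0) (hz2 : z - z⁻¹ ≠ 0) {a b : ℤ}
    (h : z ^ (a + 1) = z ^ (-(b + 1))) :
    (Chebyshev.S K a).eval (z + z⁻¹) + (Chebyshev.S K b).eval (z + z⁻¹) = 0 := by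
  have h1 := S_eval z hz a
  have h2 := S_eval z hz b
  have h3 : z ^ (-(a + 1)) = z ^ (b + 1) := by
    have := congrArg (fun x => x⁻¹) h
    simpa [← zpow_neg] using this
  have : ((Chebyshev.S K a).eval (z + z⁻¹) + (Chebyshev.S K b).eval (z + z⁻¹)) * (z - z⁻¹) = 0 := by
    rw [add_mul, h1, h2, h, h3]
    ring
  exact (mul_eq_zero.1 this).resolve_right hz2

lemma S_zero' {z : K} (hz : z ≠ 0) (hz2 : z - z⁻¹ ≠ 0) {a : ℤ}
    (h : z ^ (a + 1) = z ^ (-(a + 1))) :
    (Chebyshev.S K a).eval (z + z⁻¹) = 0 := by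
  have h1 := S_eval z hz a
  rw [h, sub_self] at h1
  exact (mul_eq_zero.1 h1).resolve_right hz2

end cheb

section refl

variable {K : Type*} [Field K] {V : Type*} [AddCommGroup V] [Module K V]

lemma refl_pow {x y : V} {f g : Module.Dual K V} (hf : f x = 2) (hg : g y = 2) {m : ℕ}
    {z : K} (hz : z ^ m = 1) (hz0 : z ≠ 0) (hz2 : z ^ 2 ≠ 1) (hm : Even m → z ^ (m / 2) = -1)
    (ht : z + z⁻¹ = f y * g x - 2) :
    (Module.reflection hf * Module.reflection hg) ^ m = 1 := by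
  have hzz : z - z⁻¹ ≠ 0 := by
    intro h
    apply hz2
    have : z = z⁻¹ := sub_eq_zero.1 h
    calc z ^ 2 = z * z := sq z
      _ = z * z⁻¹ := by rw [← this]
      _ = 1 := mul_inv_cancel₀ hz0
  have hzm : z ^ (m : ℤ) = 1 := by exact_mod_cast hz
  apply LinearEquiv.toLinearMap_injective
  rw [Module.reflection_mul_reflection_pow hf hg m _ ht]
  rcases Nat.even_or_odd' m with ⟨k, hk | hk⟩
  · have hk2 : z ^ (k : ℤ) = -1 := by
      have := hm ⟨k, by omega⟩
      rw [hk, Nat.mul_div_cancel_left _ (by norm_num)] at this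
      exact_mod_cast this
    have e1 : (((m : ℤ) - 2) / 2) = k - 1 := by omega
    have e2 : (((m : ℤ) - 1) / 2) = k - 1 := by omega
    have e0 : (Chebyshev.S K ((k : ℤ) - 1)).eval (z + z⁻¹) = 0 := by
      apply S_zero' hz0 hzz
      rw [sub_add_cancel, zpow_neg, hk2]
      norm_num
    rw [e1, e2, e0]
    simp only [zero_mul, zero_smul, add_zero]
    rfl
  · have e1 : (((m : ℤ) - 2) / 2) = k - 1 := by omega
    have e2 : (((m : ℤ) - 1) / 2) = k := by omega
    have e3 : (((m : ℤ) - 3) / 2) = k - 1 := by omega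
    have e4 : (((m : ℤ)) / 2) = k := by omega
    have e0 : (Chebyshev.S K ((k : ℤ))).eval (z + z⁻¹) +
        (Chebyshev.S K ((k : ℤ) - 1)).eval (z + z⁻¹) = 0 := by
      apply S_sum_zero hz0 hzz
      rw [sub_add_cancel]
      have : z ^ ((k : ℤ) + 1) * z ^ (k : ℤ) = 1 := by
        rw [← zpow_add₀ hz0, ← hzm]
        congr 1
        omega
      rw [zpow_neg]
      exact eq_inv_of_mul_eq_one_left this
    rw [e1, e2, e3, e4, e0]
    simp only [mul_zero, zero_smul, add_zero]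
    rfl

end refl

section mat

variable {B : Type*} [Fintype B] [DecidableEq B] {K : Type*} [Field K]

/-- the matrix of the reflection `v ↦ v - (a i · v) e_i` -/
def Rmat (a : B → B → K) (i : B) : Matrix B B K :=
  1 - Matrix.vecMulVec (Pi.single i 1) (a i)

/-- conditions on a Cartan matrix of the Coxeter matrix `M` -/
structure Good (M : CoxeterMatrix B) (a : B → B → K) : Prop where
  diag : ∀ i, a i i = 2
  two : ∀ i j, M i j = 2 → a i j = 0
  fin : ∀ i j, i ≠ j → M i j ≠ 0 → M i j ≠ 2 → ∃ z : K, z ^ M i j = 1 ∧ z ^ 2 ≠ 1 ∧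
    (Even (M i j) → z ^ (M i j / 2) = -1) ∧ z + z⁻¹ = a i j * a j i - 2

lemma Rmat_mulVec (a : B → B → K) (i : B) (v : B → K) :
    (Rmat a i).mulVec v = v - (a i ⬝ᵥ v) • Pi.single i 1 := by
  rw [Rmat, Matrix.sub_mulVec, Matrix.one_mulVec, Matrix.vecMulVec_mulVec]
  congr 1
  ext x
  simp [mul_comm]

/-- the linear form `v ↦ a i · v` -/
def frm (a : B → B → K) (i : B) : Module.Dual K (B → K) where
  toFun v := a i ⬝ᵥ v
  map_add' := by intro x y; rw [dotProduct_add]
  map_smul' := by intro c x; rw [dotProduct_smul]; rfl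

lemma frm_single (a : B → B → K) (i j : B) : frm a i (Pi.single j 1) = a i j := by
  simp [frm]

lemma toLin_Rmat {a : B → B → K} {i : B} (h : frm a i (Pi.single i 1) = 2) :
    Matrix.toLin' (Rmat a i) = (Module.reflection h).toLinearMap := by
  apply LinearMap.ext
  intro v
  rw [Matrix.toLin'_apply, Rmat_mulVec]
  simp only [LinearEquiv.coe_coe, Module.reflection_apply]
  rfl

lemma E_mul (a : B → B → K) (i j : B) :
    Matrix.vecMulVec (Pi.single i 1) (a i) * Matrix.vecMulVec (Pi.single j 1) (a j) =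
      a i j • Matrix.vecMulVec (Pi.single i (1 : K)) (a j) := by
  rw [Matrix.vecMulVec_mul_vecMulVec]
  ext x y
  simp [Matrix.vecMulVec]
  ring

theorem liftable {M : CoxeterMatrix B} {a : B → B → K} (h : Good M a) :
    M.IsLiftable (Rmat a) := by
  intro i j
  rcases eq_or_ne i j with rfl | hij
  · rw [M.diagonal, pow_one]
    have e := E_mul a i i
    rw [h.diag] at e
    rw [Rmat, sub_mul, mul_sub, mul_sub, e]
    simp only [one_mul, mul_one]
    rw [two_smul]
    abel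
  by_cases h0 : M i j = 0
  · rw [h0, pow_zero]
  by_cases h2 : M i j = 2
  · have e1 := E_mul a i j
    have e2 := E_mul a j i
    have e3 := E_mul a i i
    have e4 := E_mul a j j
    rw [h.two i j h2, zero_smul] at e1
    rw [h.two j i (by rw [M.symmetric]; exact h2), zero_smul] at e2
    rw [h.diag, two_smul] at e3 e4
    rw [h2, sq, Rmat, Rmat]
    generalize Matrix.vecMulVec (Pi.single i (1 : K)) (a i) = E at *
    generalize Matrix.vecMulVec (Pi.single j (1 : K)) (a j) = F at *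
    have : (1 - E) * (1 - F) = 1 - E - F := by
      rw [sub_mul, mul_sub, mul_sub, e1]; simp only [one_mul, mul_one]; abel
    rw [this, sub_mul, sub_mul, mul_sub, mul_sub, mul_sub, mul_sub, mul_sub, mul_sub, e1, e2, e3, e4]
    simp only [one_mul, mul_one]
    abel
  · obtain ⟨z, hz1, hz2, hz3, hz4⟩ := h.fin i j hij h0 h2
    have hz0 : z ≠ 0 := by
      rintro rfl
      rw [zero_pow h0] at hz1
      exact zero_ne_one hz1
    have hfi : frm a i (Pi.single i 1) = 2 := by rw [frm_single, h.diag]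
    have hfj : frm a j (Pi.single j 1) = 2 := by rw [frm_single, h.diag]
    have key := refl_pow hfi hfj hz1 hz0 hz2 hz3 (by rw [frm_single, frm_single, hz4])
    apply (Matrix.toLinAlgEquiv' (R := K) (n := B)).injective
    rw [map_pow, map_mul, map_one]
    have e1 : (Matrix.toLinAlgEquiv' (R := K) (n := B)) (Rmat a i) =
        (Module.reflection hfi).toLinearMap := toLin_Rmat hfi
    have e2 : (Matrix.toLinAlgEquiv' (R := K) (n := B)) (Rmat a j) =
        (Module.reflection hfj).toLinearMap := toLin_Rmat hfj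
    rw [e1, e2]
    have k2 := congrArg (fun e : ((B → K) ≃ₗ[K] (B → K)) =>
      LinearEquiv.automorphismGroup.toLinearMapMonoidHom e) key
    simp only [map_pow, map_mul, map_one] at k2
    exact k2

end mat

end Cx39
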