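import Pool.Agent.Work.MP_64ea0f_al_39.Orient
import Pool.Agent.Work.MP_64ea0f_al_39.Potential

/-! Separation: the degenerate limit of the characteristic polynomials. -/

set_option autoImplicit false

namespace Cx39

open Finset Polynomial

section mats

variable {B : Type*} [Fintype B] [DecidableEq B] {K : Type*} [Field K]

omit [Fintype B] in
lemma Nmat_smul (a : B → B → K) (x : B → B → K) (l : List B) (y : K) (i j : B) (hij : i ≠ j) :
    Nmat (fun i j => if i = j then a i j else a i j * x i j) l y i j = Nmat a l y i j * x i j := by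
  unfold Nmat
  simp only [if_neg hij]
  split_ifs <;> ring

omit [Fintype B] in
lemma Nmat_diag (a b : B → B → K) (l : List B) (y : K) (i : B) :
    Nmat a l y i i = Nmat b l y i i := by
  unfold Nmat
  simp

/-- exponent of `ε` -/
def ex (σ : Equiv.Perm B) (i j : B) : ℕ :=
  if σ i = i then 0 else if j = σ i then 0 else if σ j = i then 2 else 1

/-- the weights -/
def xw (σ : Equiv.Perm B) (e : K) (i j : B) : K :=
  if j = σ i then e⁻¹ else if σ j = i then e else 1

/-- deformed Cartan matrix -/
def aw (a : B → B → K) (σ : Equiv.Perm B) (e : K) : B → B → K :=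
  fun i j => if i = j then a i j else a i j * xw σ e i j

omit [Fintype B] in
lemma row_scale (a : B → B → K) (σ : Equiv.Perm B) {e : K} (he : e ≠ 0) (l : List B) (y : K)
    (i j : B) :
    (if σ i = i then 1 else e) * Nmat (aw a σ e) l y i j = e ^ ex σ i j * Nmat a l y i j := by
  rcases eq_or_ne i j with rfl | hij
  · rw [Nmat_diag (aw a σ e) a]
    congr 1
    unfold ex
    by_cases h : σ i = i
    · simp [h]
    · have h' : i ≠ σ i := fun e => h e.symm
      simp [h, h']
  · unfold aw
    rw [Nmat_smul a (xw σ e) l y i j hij]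
    have : (if σ i = i then 1 else e) * xw σ e i j = e ^ ex σ i j := by
      unfold xw ex
      by_cases h : σ i = i
      · have h1 : j ≠ σ i := by rw [h]; exact hij.symm
        have h2 : σ j ≠ i := by
          intro h2
          rw [← h] at h2
          exact hij (σ.injective h2).symm
        simp [h, h2, hij.symm]
      · by_cases h1 : j = σ i
        · rw [if_neg h, if_pos h1, if_neg h, if_pos h1, mul_inv_cancel₀ he, pow_zero]
        · by_cases h2 : σ j = i
          · rw [if_neg h, if_neg h1, if_pos h2, if_neg h, if_neg h1, if_pos h2, sq]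
          · rw [if_neg h, if_neg h1, if_neg h2, if_neg h, if_neg h1, if_neg h2, mul_one, pow_one]
    calc _ = ((if σ i = i then 1 else e) * xw σ e i j) * Nmat a l y i j := by ring
      _ = _ := by rw [this]

/-- polynomial matrix in `ε` -/
noncomputable def Qm (a : B → B → K) (σ : Equiv.Perm B) (l : List B) (y : K) : Matrix B B K[X] :=
  fun i j => X ^ ex σ i j * C (Nmat a l y i j)

lemma Qm_eval (a : B → B → K) (σ : Equiv.Perm B) (l : List B) (y e : K) :
    (Qm a σ l y).det.eval e = (Matrix.of fun i j => e ^ ex σ i j * Nmat a l y i j).det := by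
  have h : (Qm a σ l y).det.eval e = (Polynomial.evalRingHom e) (Qm a σ l y).det := rfl
  rw [h, RingHom.map_det]
  congr 1
  ext i j
  change (X ^ ex σ i j * C (Nmat a l y i j)).eval e = _
  rw [eval_mul, eval_pow, eval_X, eval_C, Matrix.of_apply]

lemma Qm_eval_ne (a : B → B → K) (σ : Equiv.Perm B) {e : K} (he : e ≠ 0) (l : List B) (y : K) :
    (Qm a σ l y).det.eval e = (∏ i, if σ i = i then 1 else e) * (Nmat (aw a σ e) l y).det := by
  rw [Qm_eval, ← Matrix.det_diagonal, ← Matrix.det_mul]
  congr 1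
  ext i j
  rw [Matrix.diagonal_mul, Matrix.of_apply]
  exact (row_scale a σ he l y i j).symm

/-- the matrix at `ε = 0` -/
def P0 (a : B → B → K) (σ : Equiv.Perm B) (l : List B) (y : K) : Matrix B B K :=
  fun i j => if σ i = i ∨ j = σ i then Nmat a l y i j else 0

lemma Qm_eval_zero (a : B → B → K) (σ : Equiv.Perm B)
    (l : List B) (y : K) : (Qm a σ l y).det.eval 0 = (P0 a σ l y).det := by
  rw [Qm_eval]
  congr 1
  ext i j
  rw [Matrix.of_apply]
  unfold ex P0
  by_cases h : σ i = i
  · simp [h]
  · by_cases h1 : j = σ i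
    · simp [h, h1]
    · by_cases h3 : σ j = i
      · simp [h, h1, h3]
      · simp [h, h1, h3]

/-- the block of the fixed points -/
def Rb (a : B → B → K) (σ : Equiv.Perm B) (l : List B) (y : K) :
    Matrix {i // σ i = i} {i // σ i = i} K :=
  fun i j => Nmat a l y i j

lemma det_P0 (a : B → B → K) (σ : Equiv.Perm B) (l : List B) (y : K) :
    (P0 a σ l y).det = (Equiv.Perm.sign σ : ℤ) * ((Rb a σ l y).det *
      ∏ i : {i // ¬ σ i = i}, Nmat a l y i (σ i)) := by
  have h1 := Matrix.det_permute' σ (P0 a σ l y)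
  have h2 : (P0 a σ l y).det = (Equiv.Perm.sign σ : ℤ) * ((P0 a σ l y).submatrix id σ).det := by
    rw [h1, ← mul_assoc]
    have : ((Equiv.Perm.sign σ : ℤ) : K) * ((Equiv.Perm.sign σ : ℤ) : K) = 1 := by
      rw [← Int.cast_mul]
      have : ((Equiv.Perm.sign σ : ℤˣ) : ℤ) * ((Equiv.Perm.sign σ : ℤˣ) : ℤ) = 1 := by
        rw [← Units.val_mul, Int.units_mul_self]; rfl
      rw [this, Int.cast_one]
    rw [this, one_mul]
  rw [h2]
  congr 1
  rw [Matrix.twoBlockTriangular_det _ (fun i => σ i = i)]
  · congr 1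
    · congr 1
      ext i j
      change (if σ i.1 = i.1 ∨ σ j.1 = σ i.1 then Nmat a l y i.1 (σ j.1) else 0) = _
      rw [if_pos (Or.inl i.2), j.2]
      rfl
    · rw [← Matrix.det_diagonal]
      congr 1
      ext i j
      change (if σ i.1 = i.1 ∨ σ j.1 = σ i.1 then Nmat a l y i.1 (σ j.1) else 0) = _
      rcases eq_or_ne i j with rfl | hij
      · rw [if_pos (Or.inr rfl), Matrix.diagonal_apply_eq]
      · rw [Matrix.diagonal_apply_ne _ hij, if_neg]
        rintro (h | h)
        · exact i.2 h
        · exact hij (Subtype.ext (σ.injective h).symm)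
  · intro i hi j hj
    change (if σ i = i ∨ σ j = σ i then Nmat a l y i (σ j) else 0) = 0
    rw [if_neg]
    rintro (h | h)
    · exact hi h
    · have := σ.injective h
      subst this
      exact hi hj

/-- polynomial version of `Nmat` -/
noncomputable def NP (a : B → B → K) (l : List B) : Matrix B B K[X] :=
  fun i j => if i ∈ l then (if i = j then X + 1 else if aft l i j then X * C (a i j) else C (a i j))
    else (if i = j then X - 1 else 0)

omit [Fintype B] in
lemma NP_eval (a : B → B → K) (l : List B) (y : K) (i j : B) :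
    (NP a l i j).eval y = Nmat a l y i j := by
  unfold NP Nmat
  split_ifs
  · simp
  · rw [eval_mul, eval_X, eval_C]
  · rw [eval_C]
  · simp
  · simp

noncomputable def RP (a : B → B → K) (σ : Equiv.Perm B) (l : List B) : K[X] :=
  (Matrix.of fun (i j : {i // σ i = i}) => NP a l i j).det

lemma RP_eval (a : B → B → K) (σ : Equiv.Perm B) (l : List B) (y : K) :
    (RP a σ l).eval y = (Rb a σ l y).det := by
  have h : (RP a σ l).eval y = (Polynomial.evalRingHom y) (RP a σ l) := rfl
  rw [h, RP, RingHom.map_det]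
  congr 1
  ext i j
  exact NP_eval a l y i j

lemma RP_zero (a : B → B → K) (σ : Equiv.Perm B) (l : List B) : (RP a σ l).eval 0 ≠ 0 := by
  rw [RP_eval, det_tri' (Rb a σ l 0) (fun i => if i.1 ∈ l then l.idxOf i.1 + 1 else 0)]
  · rw [Finset.prod_ne_zero_iff]
    intro i _
    unfold Rb Nmat
    by_cases h : i.1 ∈ l
    · simp [h]
    · simp [h]
  · intro i j hij hb
    have hij' : i.1 ≠ j.1 := fun e => hij (Subtype.ext e)
    unfold Rb Nmat
    by_cases h : i.1 ∈ l
    · rw [if_pos h, if_neg hij']
      by_cases hj : j.1 ∈ l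
      · simp only [h, hj, if_true] at hb
        have hne : l.idxOf i.1 ≠ l.idxOf j.1 := fun e => hij' ((List.idxOf_inj h).1 e)
        rw [if_pos ⟨hj, by omega⟩, zero_mul]
      · simp only [h, hj, if_true, if_false] at hb
        omega
    · rw [if_neg h, if_neg hij']

/-- the flow -/
def fl (σ : Equiv.Perm B) (l : List B) : ℕ :=
  (univ.filter fun i => σ i ≠ i ∧ aft l i (σ i)).card

lemma prod_weights (a : B → B → K) (σ : Equiv.Perm B) (l : List B) (y : K)
    (hl : ∀ i, σ i ≠ i → i ∈ l) :
    ∏ i : {i // ¬ σ i = i}, Nmat a l y i (σ i) =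
      y ^ fl σ l * ∏ i : {i // ¬ σ i = i}, a i (σ i) := by
  have h1 : ∀ i : {i // ¬ σ i = i}, Nmat a l y i (σ i) =
      (if aft l i (σ i) then y else 1) * a i (σ i) := by
    intro i
    unfold Nmat
    rw [if_pos (hl i i.2), if_neg (fun e => i.2 e.symm)]
    split_ifs <;> simp
  rw [Finset.prod_congr rfl fun i _ => h1 i, Finset.prod_mul_distrib]
  congr 1
  have h2 : ∏ i : {i // ¬ σ i = i}, (if aft l i (σ i) then y else 1) =
      ∏ i ∈ univ.filter (fun i => ¬ σ i = i), (if aft l i (σ i) then y else 1) := by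
    rw [← Finset.prod_subtype_eq_prod_filter]
    simp
  rw [h2, Finset.prod_ite]
  simp only [Finset.prod_const, one_pow, mul_one]
  rw [Finset.filter_filter]
  rfl

theorem exists_good_params [Infinite K] (a : B → B → K) (σ : Equiv.Perm B) (l l' : List B)
    (hl : ∀ i, σ i ≠ i → i ∈ l) (hl' : ∀ i, σ i ≠ i → i ∈ l')
    (ha : ∀ i, σ i ≠ i → a i (σ i) ≠ 0) (hf : fl σ l ≠ fl σ l') :
    ∃ e y : K, e ≠ 0 ∧ (Nmat (aw a σ e) l y).det ≠ (Nmat (aw a σ e) l' y).det := by
  -- first step: `ε = 0`
  obtain ⟨y, hy⟩ : ∃ y : K, (P0 a σ l y).det ≠ (P0 a σ l' y).det := by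
    by_contra hcon
    push Not at hcon
    set κ : K := ∏ i : {i // ¬ σ i = i}, a i (σ i) with hκ
    have hκ0 : κ ≠ 0 := by
      rw [hκ, Finset.prod_ne_zero_iff]
      intro i _
      exact ha i i.2
    have hs : ((Equiv.Perm.sign σ : ℤ) : K) ≠ 0 := by
      intro h0
      have h1 : ((Equiv.Perm.sign σ : ℤ) : K) * ((Equiv.Perm.sign σ : ℤ) : K) = 1 := by
        rw [← Int.cast_mul]
        have : ((Equiv.Perm.sign σ : ℤˣ) : ℤ) * ((Equiv.Perm.sign σ : ℤˣ) : ℤ) = 1 := by
          rw [← Units.val_mul, Int.units_mul_self]; rfl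
        rw [this, Int.cast_one]
      rw [h0, zero_mul] at h1
      exact zero_ne_one h1
    have key : (X : K[X]) ^ fl σ l * RP a σ l = X ^ fl σ l' * RP a σ l' := by
      apply Polynomial.funext
      intro y
      have := hcon y
      rw [det_P0, det_P0, prod_weights a σ l y hl, prod_weights a σ l' y hl', ← hκ] at this
      have h3 := mul_left_cancel₀ hs this
      simp only [eval_mul, eval_pow, eval_X, RP_eval]
      apply mul_right_cancel₀ hκ0
      calc y ^ fl σ l * (Rb a σ l y).det * κ = (Rb a σ l y).det * (y ^ fl σ l * κ) := by ring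
        _ = (Rb a σ l' y).det * (y ^ fl σ l' * κ) := h3
        _ = _ := by ring
    rcases lt_or_gt_of_ne hf with h | h
    · obtain ⟨k, hk⟩ : ∃ k, fl σ l' = fl σ l + (k + 1) := ⟨fl σ l' - fl σ l - 1, by omega⟩
      rw [hk, pow_add, mul_assoc] at key
      have h4 := mul_left_cancel₀ (pow_ne_zero _ X_ne_zero) key
      apply RP_zero a σ l
      rw [h4]
      simp
    · obtain ⟨k, hk⟩ : ∃ k, fl σ l = fl σ l' + (k + 1) := ⟨fl σ l - fl σ l' - 1, by omega⟩
      rw [hk, pow_add, mul_assoc] at key
      have h4 := mul_left_cancel₀ (pow_ne_zero _ X_ne_zero) key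
      apply RP_zero a σ l'
      rw [← h4]
      simp
  -- second step
  set D : K[X] := (Qm a σ l y).det - (Qm a σ l' y).det with hD
  have hD0 : D ≠ 0 := by
    intro h
    apply hy
    rw [← Qm_eval_zero a σ, ← Qm_eval_zero a σ]
    have := congrArg (Polynomial.eval 0) h
    rw [hD, eval_sub, eval_zero, sub_eq_zero] at this
    exact this
  have hXD : X * D ≠ 0 := mul_ne_zero X_ne_zero hD0
  obtain ⟨e, he⟩ : ∃ e : K, (X * D).eval e ≠ 0 := by
    by_contra hcon
    push Not at hcon
    exact hXD (Polynomial.funext fun e => by rw [hcon e, eval_zero])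
  rw [eval_mul, eval_X] at he
  have he0 : e ≠ 0 := left_ne_zero_of_mul he
  have he1 := right_ne_zero_of_mul he
  refine ⟨e, y, he0, fun h => he1 ?_⟩
  rw [hD, eval_sub, Qm_eval_ne a σ he0, Qm_eval_ne a σ he0, h, sub_self]

end mats

end Cx39
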